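import Mathlib

/-!
Project TW: quasiconvex and rank-one convex envelopes of two-well energies in the plane differ.
Definitions and the exact statements (Props) of the parts of the proof. Mathlib only.
-/

set_option autoImplicit false

open scoped BigOperators
open MeasureTheory

namespace Pool.Agent.W682.TW

/-! ### index set, wave vectors -/

/-- components: free axis `o`, axes `c s` (s < 2n), axes `a i` (i < n), axes `b j` (j < n) -/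
abbrev Ix (n : ℕ) : Type := (Unit ⊕ Fin (2 * n)) ⊕ (Fin n ⊕ Fin n)

/-- integer wave vectors: o = (0,1), c s = (2n+2, s+2), a i = (1, i+1), b j = (2n+1, j+1);
note a i + b j = c (i+j) -/
def kv (n : ℕ) : Ix n → Fin 2 → ℤ
  | .inl (.inl _) => ![0, 1]
  | .inl (.inr s) => ![2 * (n : ℤ) + 2, (s.val : ℤ) + 2]
  | .inr (.inl i) => ![1, (i.val : ℤ) + 1]
  | .inr (.inr j) => ![2 * (n : ℤ) + 1, (j.val : ℤ) + 1]

/-- real wave vector -/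
def kr (n : ℕ) (ι : Ix n) : Fin 2 → ℝ := fun i => ((kv n ι i : ℤ) : ℝ)

def ip (v w : Fin 2 → ℝ) : ℝ := v 0 * w 0 + v 1 * w 1
def dt (v w : Fin 2 → ℝ) : ℝ := v 0 * w 1 - v 1 * w 0

/-! ### functions on the state space -/

/-- states (θ, a, b) -/
abbrev St (n : ℕ) : Type := ℝ × (Fin n → ℝ) × (Fin n → ℝ)

def sq {n : ℕ} (v : Fin n → ℝ) : ℝ := ∑ i, v i ^ 2

/-- bilinear coupling a^T P b with p_ij = σ (i+j) -/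
def pf (n : ℕ) (σ : ℕ → ℝ) (a b : Fin n → ℝ) : ℝ :=
  ∑ i : Fin n, ∑ j : Fin n, σ (i.val + j.val) * a i * b j

def Yf (n : ℕ) (σ : ℕ → ℝ) (b : Fin n → ℝ) (i : Fin n) : ℝ :=
  ∑ j : Fin n, σ (i.val + j.val) * b j

noncomputable def psi (n : ℕ) (σ : ℕ → ℝ) (b : Fin n → ℝ) : ℝ :=
  (Real.sqrt (∑ i : Fin n, Yf n σ b i ^ 4 + 1) - 1) / 20

noncomputable def g1 (n : ℕ) (σ : ℕ → ℝ) (ε : ℝ) (x : St n) : ℝ :=
  x.1 * pf n σ x.2.1 x.2.2 + 6 * sq x.2.1 + 11 / 2 * sq x.2.2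
    - (x.1 - x.1 ^ 2) * (psi n σ x.2.2 + sq x.2.1 / 12)
    - ε * (1 + x.1 - x.1 ^ 2) - (sq x.2.1) ^ 2 / 144

noncomputable def g4 (n : ℕ) (Mc : ℝ) (x : St n) : ℝ :=
  Mc * (x.1 ^ 2 - x.1) - (n : ℝ) ^ 2 * sq x.2.1 + 23 / 4 * sq x.2.2 - 1

/-- the two wells on the state space, χ ∈ {0,1} -/
noncomputable def wx (n : ℕ) (σ : ℕ → ℝ) (Λ χ : ℝ) (x : St n) : ℝ :=
  Λ * (x.1 - χ) ^ 2 + χ * pf n σ x.2.1 x.2.2 + 6 * sq x.2.1 + 6 * sq x.2.2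

/-- the minorant: max (g1, g4) on the slab, g4 outside -/
noncomputable def gg (n : ℕ) (σ : ℕ → ℝ) (ε Mc : ℝ) (x : St n) : ℝ := by
  classical
  exact if -(1 / (n : ℝ) ^ 2) ≤ x.1 ∧ x.1 ≤ 1 + 1 / (n : ℝ) ^ 2 then
    max (g1 n σ ε x) (g4 n Mc x) else g4 n Mc x

/-- axis vectors in the state space -/
def ax (n : ℕ) : Ix n → St n
  | .inl _ => (1, 0, 0)
  | .inr (.inl i) => (1, Pi.single i 1, 0)
  | .inr (.inr j) => (0, 0, Pi.single j 1)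

/-- sign sequence -/
def Sgn (σ : ℕ → ℝ) : Prop := ∀ s, σ s = 1 ∨ σ s = -1

/-! ### matrix level -/

abbrev Mt (m : ℕ) : Type := Matrix (Fin 2) (Fin m) ℝ

variable {n m : ℕ}

def col (e : Ix n ≃ Fin m) (F : Mt m) (ι : Ix n) : Fin 2 → ℝ := fun i => F i (e ι)

/-- coordinate along the wave vector -/
noncomputable def Gc (e : Ix n ≃ Fin m) (F : Mt m) (ι : Ix n) : ℝ :=
  ip (kr n ι) (col e F ι) / ip (kr n ι) (kr n ι)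

/-- off-coordinate -/
noncomputable def Oc (e : Ix n ≃ Fin m) (F : Mt m) (ι : Ix n) : ℝ :=
  dt (kr n ι) (col e F ι) / ip (kr n ι) (kr n ι)

/-- state of a matrix: θ = sum of the coordinates o, c, a -/
noncomputable def st (e : Ix n ≃ Fin m) (F : Mt m) : St n :=
  ((∑ z : Unit ⊕ Fin (2 * n), Gc e F (.inl z)) + ∑ i : Fin n, Gc e F (.inr (.inl i)),
    fun i => Gc e F (.inr (.inl i)), fun j => Gc e F (.inr (.inr j)))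

noncomputable def SO (e : Ix n ≃ Fin m) (F : Mt m) : ℝ := ∑ ι, Oc e F ι ^ 2

/-- axes o, c, a -/
def za (n : ℕ) : (Unit ⊕ Fin (2 * n)) ⊕ Fin n → Ix n
  | .inl z => .inl z
  | .inr i => .inr (.inl i)

/-- null Lagrangian -/
noncomputable def NN (e : Ix n ≃ Fin m) (c : ℝ) (F : Mt m) : ℝ :=
  -c * ∑ ι : (Unit ⊕ Fin (2 * n)) ⊕ Fin n, ∑ κ : (Unit ⊕ Fin (2 * n)) ⊕ Fin n,
    dt (col e F (za n ι)) (col e F (za n κ)) / dt (kr n (za n ι)) (kr n (za n κ))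

/-- the wells -/
noncomputable def Wm (e : Ix n ≃ Fin m) (σ : ℕ → ℝ) (Λ k c χ : ℝ) (F : Mt m) : ℝ :=
  wx n σ Λ χ (st e F) + k * SO e F + NN e c F

/-- quadratic polynomial with positive definite quadratic part -/
def IsPQ (Q : Mt m → ℝ) : Prop :=
  ∃ (B : Mt m →ₗ[ℝ] Mt m →ₗ[ℝ] ℝ) (l : Mt m →ₗ[ℝ] ℝ) (c₀ : ℝ),
    (∀ X Y, B X Y = B Y X) ∧ (∀ X, X ≠ 0 → 0 < B X X) ∧ ∀ F, Q F = B F F + l F + c₀

/-- rank-one convexity -/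
def RankOne (g : Mt m → ℝ) : Prop :=
  ∀ (A : Mt m) (a : Fin 2 → ℝ) (b : Fin m → ℝ),
    ConvexOn ℝ Set.univ (fun t : ℝ => g (A + t • Matrix.vecMulVec a b))

/-- smooth periodic fields -/
def Adm (u : (Fin 2 → ℝ) → (Fin m → ℝ)) : Prop :=
  ContDiff ℝ ((⊤ : ℕ∞) : WithTop ℕ∞) u ∧
    ∀ (x : Fin 2 → ℝ) (z : Fin 2 → ℤ), u (x + fun i => (z i : ℝ)) = u x

/-- the gradient, rows = derivatives -/
noncomputable def gr (u : (Fin 2 → ℝ) → (Fin m → ℝ)) (x : Fin 2 → ℝ) : Mt m :=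
  Matrix.of (fun (i : Fin 2) (α : Fin m) => fderiv ℝ u x (Pi.single i (1 : ℝ)) α)

/-- the unit cell -/
def cube : Set (Fin 2 → ℝ) := Set.univ.pi (fun _ : Fin 2 => Set.Icc (0 : ℝ) 1)

/-- the frozen statement S03836 -/
def Frz : Prop :=
    ¬ (∀ (m : ℕ) (L₁ L₂ : Matrix (Fin 2) (Fin m) ℝ →ₗ[ℝ] Matrix (Fin 2) (Fin m) ℝ)
      (F₁ F₂ : Matrix (Fin 2) (Fin m) ℝ) (k₁ k₂ : ℝ),
      (∀ A B : Matrix (Fin 2) (Fin m) ℝ,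
          Matrix.trace (A * (L₁ B).transpose) = Matrix.trace (L₁ A * B.transpose)) →
      (∀ A B : Matrix (Fin 2) (Fin m) ℝ,
          Matrix.trace (A * (L₂ B).transpose) = Matrix.trace (L₂ A * B.transpose)) →
      (∀ A : Matrix (Fin 2) (Fin m) ℝ, A ≠ 0 → 0 < Matrix.trace (A * (L₁ A).transpose)) →
      (∀ A : Matrix (Fin 2) (Fin m) ℝ, A ≠ 0 → 0 < Matrix.trace (A * (L₂ A).transpose)) →
      ∀ F : Matrix (Fin 2) (Fin m) ℝ,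
        sInf { q : ℝ | ∃ u : (Fin 2 → ℝ) → (Fin m → ℝ),
            ContDiff ℝ ((⊤ : ℕ∞) : WithTop ℕ∞) u ∧
            (∀ (x : Fin 2 → ℝ) (z : Fin 2 → ℤ), u (x + fun i => (z i : ℝ)) = u x) ∧
            q = ∫ x in Set.univ.pi (fun _ : Fin 2 => Set.Icc (0 : ℝ) 1),
                (fun H : Matrix (Fin 2) (Fin m) ℝ =>
                    min (Matrix.trace ((H - F₁) * (L₁ (H - F₁)).transpose) + k₁)
                        (Matrix.trace ((H - F₂) * (L₂ (H - F₂)).transpose) + k₂))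
                  (F + Matrix.of (fun (i : Fin 2) (α : Fin m) =>
                      fderiv ℝ u x (Pi.single i (1 : ℝ)) α)) }
        =
        sSup { r : ℝ | ∃ g : Matrix (Fin 2) (Fin m) ℝ → ℝ,
            (∀ (A : Matrix (Fin 2) (Fin m) ℝ) (a : Fin 2 → ℝ) (b : Fin m → ℝ),
                ConvexOn ℝ Set.univ (fun t : ℝ => g (A + t • Matrix.vecMulVec a b))) ∧
            (∀ H : Matrix (Fin 2) (Fin m) ℝ,
                g H ≤ min (Matrix.trace ((H - F₁) * (L₁ (H - F₁)).transpose) + k₁)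
                          (Matrix.trace ((H - F₂) * (L₂ (H - F₂)).transpose) + k₂)) ∧
            r = g F })

/-! ### test field -/

/-- phase 2π k·x -/
noncomputable def ph (n : ℕ) (ι : Ix n) (x : Fin 2 → ℝ) : ℝ :=
  2 * Real.pi * ip (kr n ι) x

/-- amplitudes of the slow waves: 0 for o, -(7/4096) σ_s for c s, α for a i and b j -/
noncomputable def amp (n : ℕ) (σ : ℕ → ℝ) (α : ℝ) : Ix n → ℝ
  | .inl (.inl _) => 0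
  | .inl (.inr s) => -(7 / 4096) * σ s.val
  | .inr _ => α

/-- the slow field, component e ι = amp ι /(2π) sin (2π k·x) -/
noncomputable def slow (e : Ix n ≃ Fin m) (σ : ℕ → ℝ) (α : ℝ) (x : Fin 2 → ℝ) : Fin m → ℝ :=
  fun j => amp n σ α (e.symm j) / (2 * Real.pi) * Real.sin (ph n (e.symm j) x)

/-- coarse value of θ: 1/2 + sum over c and a axes of amp cos -/
noncomputable def thx (n : ℕ) (σ : ℕ → ℝ) (α : ℝ) (x : Fin 2 → ℝ) : ℝ :=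
  1 / 2 + (∑ s : Fin (2 * n), amp n σ α (.inl (.inr s)) * Real.cos (ph n (.inl (.inr s)) x))
    + ∑ i : Fin n, amp n σ α (.inr (.inl i)) * Real.cos (ph n (.inr (.inl i)) x)

noncomputable def Af (n : ℕ) (α : ℝ) (x : Fin 2 → ℝ) : Fin n → ℝ :=
  fun i => α * Real.cos (ph n (.inr (.inl i)) x)

noncomputable def Bf (n : ℕ) (α : ℝ) (x : Fin 2 → ℝ) : Fin n → ℝ :=
  fun j => α * Real.cos (ph n (.inr (.inr j)) x)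

/-- truncated Fourier series of (indicator of s < τ) - τ -/
noncomputable def TK (K : ℕ) (τ s : ℝ) : ℝ :=
  ∑ k ∈ Finset.Icc 1 K, (Real.sin (2 * Real.pi * k * τ) * Real.cos (2 * Real.pi * k * s)
    + (1 - Real.cos (2 * Real.pi * k * τ)) * Real.sin (2 * Real.pi * k * s)) / (Real.pi * k)

/-- its primitive in s -/
noncomputable def PK (K : ℕ) (τ s : ℝ) : ℝ :=
  ∑ k ∈ Finset.Icc 1 K, (Real.sin (2 * Real.pi * k * τ) * Real.sin (2 * Real.pi * k * s)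
    - (1 - Real.cos (2 * Real.pi * k * τ)) * Real.cos (2 * Real.pi * k * s))
      / (2 * Real.pi ^ 2 * k ^ 2)

/-- the base matrix: component o has gradient (0, 1/2) -/
noncomputable def F0 (e : Ix n ≃ Fin m) : Mt m :=
  fun i j => if j = e (.inl (.inl ())) ∧ i = 1 then 1 / 2 else 0

/-- the fast direction: unit vector (0,1) in component o -/
noncomputable def Eo (e : Ix n ≃ Fin m) : Mt m :=
  fun i j => if j = e (.inl (.inl ())) ∧ i = 1 then 1 else 0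

/-! ### statements -/

/-- TW-RS (Rudin-Shapiro) -/
def S_RS : Prop := ∀ K : ℕ, ∃ σ : ℕ → ℝ, Sgn σ ∧
  ∀ φ y : ℝ, (∑ s ∈ Finset.range (2 ^ K), σ s * Real.cos (φ + s * y)) ^ 2 ≤ 2 * 2 ^ K

/-- TW-LOC (locally supported by convex functions implies convex) -/
def S_LOC : Prop := ∀ h : ℝ → ℝ, Continuous h →
  (∀ t₀ : ℝ, ∃ (φ : ℝ → ℝ) (r : ℝ), 0 < r ∧ ConvexOn ℝ (Set.Ioo (t₀ - r) (t₀ + r)) φ ∧
    φ t₀ = h t₀ ∧ ∀ t ∈ Set.Ioo (t₀ - r) (t₀ + r), φ t ≤ h t) →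
  ConvexOn ℝ Set.univ h

/-- TW-DIR (only one axis can be nearly parallel to a given vector) -/
def S_DIR : Prop := ∀ n : ℕ, ∃ C₀ : ℝ, 0 ≤ C₀ ∧ ∀ v : Fin 2 → ℝ, ∃ ι₀ : Ix n, ∀ ι : Ix n, ι ≠ ι₀ →
  |ip (kr n ι) v| ≤ C₀ * |dt (kr n ι) v|

/-- TW-RC (penalisation: convexity along rank-one lines from convexity along the axes) -/
def S_RC : Prop := ∀ (n m : ℕ) (e : Ix n ≃ Fin m) (γ : St n → ℝ) (D : Set (St n)) (s₀ : ℝ),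
  ContDiff ℝ 2 γ → Bornology.IsBounded D → 0 < s₀ →
  (∀ x ∈ D, ∀ ι : Ix n, s₀ ≤ deriv (deriv (fun τ : ℝ => γ (x + τ • ax n ι))) 0) →
  ∃ k₀ : ℝ, ∀ k : ℝ, k₀ ≤ k → ∀ (F : Mt m) (v : Fin 2 → ℝ) (β : Fin m → ℝ) (l r : ℝ),
    (∀ t ∈ Set.Ioo l r, st e (F + t • Matrix.vecMulVec v β) ∈ D) →
    ConvexOn ℝ (Set.Ioo l r) (fun t : ℝ => γ (st e (F + t • Matrix.vecMulVec v β))
      + k * SO e (F + t • Matrix.vecMulVec v β))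

/-- TW-G1 (smoothness and axis convexity of g1 on the slab) -/
def S_G1 : Prop := ∀ (n : ℕ) (σ : ℕ → ℝ) (ε : ℝ), n = 2 ^ 14 → Sgn σ → 0 < ε → ε ≤ 1 / 2 →
  ContDiff ℝ 2 (g1 n σ ε) ∧
  ∀ x : St n, -(1 / (n : ℝ) ^ 2) ≤ x.1 → x.1 ≤ 1 + 1 / (n : ℝ) ^ 2 → ∀ ι : Ix n,
    2 * ε ≤ deriv (deriv (fun τ : ℝ => g1 n σ ε (x + τ • ax n ι))) 0

/-- TW-RC4 (g4 along rank-one lines) -/
def S_RC4 : Prop := ∀ (n m : ℕ) (e : Ix n ≃ Fin m) (Mc : ℝ), 2 * (n : ℝ) ^ 2 ≤ Mc →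
  ∃ k₀ : ℝ, ∀ k : ℝ, k₀ ≤ k → ∀ (F : Mt m) (v : Fin 2 → ℝ) (β : Fin m → ℝ),
    ConvexOn ℝ Set.univ (fun t : ℝ => g4 n Mc (st e (F + t • Matrix.vecMulVec v β))
      + k * SO e (F + t • Matrix.vecMulVec v β))

/-- TW-DOM -/
def S_DOM : Prop := ∀ (n : ℕ) (σ : ℕ → ℝ) (ε Mc : ℝ), n = 2 ^ 14 → Sgn σ → 0 < ε → ε ≤ 1 / 2 →
  2000 * (n : ℝ) ^ 6 ≤ Mc →
  (∀ x : St n, (x.1 = -(1 / (n : ℝ) ^ 2) ∨ x.1 = 1 + 1 / (n : ℝ) ^ 2) → g1 n σ ε x < g4 n Mc x) ∧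
  ∃ R : ℝ, ∀ x : St n, -(1 / (n : ℝ) ^ 2) ≤ x.1 → x.1 ≤ 1 + 1 / (n : ℝ) ^ 2 →
    g4 n Mc x ≤ g1 n σ ε x → sq x.2.1 ≤ R ∧ sq x.2.2 ≤ R

/-- TW-LE4 -/
def S_LE4 : Prop := ∀ (n : ℕ) (σ : ℕ → ℝ) (Mc Λ χ : ℝ), Sgn σ → 0 ≤ Mc → Mc + Mc ^ 2 / 4 ≤ Λ →
  (χ = 0 ∨ χ = 1) → ∀ x : St n, g4 n Mc x ≤ wx n σ Λ χ x

/-- TW-LE1 -/
def S_LE1 : Prop := ∀ (n : ℕ) (σ : ℕ → ℝ) (ε R : ℝ), 2 ≤ n → Sgn σ → 0 < ε →
  ∃ Λ₀ : ℝ, ∀ Λ χ : ℝ, Λ₀ ≤ Λ → (χ = 0 ∨ χ = 1) → ∀ x : St n,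
    -(1 / (n : ℝ) ^ 2) ≤ x.1 → x.1 ≤ 1 + 1 / (n : ℝ) ^ 2 → sq x.2.1 ≤ R → sq x.2.2 ≤ R →
    g1 n σ ε x ≤ wx n σ Λ χ x

/-- TW-NL (the null Lagrangian is affine along rank-one lines) -/
def S_NL : Prop := ∀ (n m : ℕ) (e : Ix n ≃ Fin m) (c : ℝ) (F : Mt m) (v : Fin 2 → ℝ)
  (β : Fin m → ℝ), ∃ p q : ℝ, ∀ t : ℝ, NN e c (F + t • Matrix.vecMulVec v β) = p + q * t

/-- TW-POS -/
def S_POS : Prop := ∀ (n m : ℕ) (e : Ix n ≃ Fin m) (σ : ℕ → ℝ) (Λ χ : ℝ), 1 ≤ n → Sgn σ →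
  (n : ℝ) ^ 2 ≤ Λ → (χ = 0 ∨ χ = 1) →
  ∃ k₀ : ℝ, ∀ k : ℝ, k₀ ≤ k → IsPQ (Wm e σ Λ k ((n : ℝ) ^ 2) χ)

/-- TW-RKA (assembly of rank-one convexity) -/
def S_RKA : Prop := ∀ (n m : ℕ) (e : Ix n ≃ Fin m) (σ : ℕ → ℝ) (ε Mc c : ℝ), n = 2 ^ 14 → Sgn σ →
  0 < ε → ε ≤ 1 / 2 → 2000 * (n : ℝ) ^ 6 ≤ Mc →
  ∃ k₀ : ℝ, ∀ k : ℝ, k₀ ≤ k → RankOne (fun F : Mt m => gg n σ ε Mc (st e F) + k * SO e F + NN e c F)

/-- TW-FRZ -/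
def S_FRZ : Prop := ∀ (m : ℕ) (Q₀ Q₁ g : Mt m → ℝ) (F : Mt m) (u : (Fin 2 → ℝ) → (Fin m → ℝ)),
  IsPQ Q₀ → IsPQ Q₁ → RankOne g → (∀ H, g H ≤ min (Q₀ H) (Q₁ H)) → Adm u →
  (∫ x in cube, min (Q₀ (F + gr u x)) (Q₁ (F + gr u x))) < g F → Frz

/-- TW-TS (two-scale fields) -/
def S_TS : Prop := ∀ (m : ℕ) (W : Mt m → ℝ) (A : Mt m) (φ : (Fin 2 → ℝ) → (Fin m → ℝ)) (j₀ : Fin m)
  (Ψ : (Fin 2 → ℝ) → ℝ → ℝ), Continuous W → Adm φ →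
  ContDiff ℝ ((⊤ : ℕ∞) : WithTop ℕ∞) (Function.uncurry Ψ) →
  (∀ (x : Fin 2 → ℝ) (z : Fin 2 → ℤ) (s : ℝ), Ψ (x + fun i => (z i : ℝ)) s = Ψ x s) →
  (∀ (x : Fin 2 → ℝ) (s : ℝ), Ψ x (s + 1) = Ψ x s) →
  ∀ δ : ℝ, 0 < δ → ∃ u : (Fin 2 → ℝ) → (Fin m → ℝ), Adm u ∧
    (∫ x in cube, W (A + gr u x)) ≤
      (∫ x in cube, ∫ s in (0 : ℝ)..1,
        W (A + gr φ x + Matrix.of (fun (i : Fin 2) (j : Fin m) =>
          if j = j₀ ∧ i = 1 then deriv (Ψ x) s else 0))) + δ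

/-- TW-PRF (profile) -/
def S_PRF : Prop := ∀ (K : ℕ) (τ : ℝ), 1 ≤ K → 0 ≤ τ → τ ≤ 1 →
  (∫ s in (0 : ℝ)..1, (τ + TK K τ s - (if s < τ then (1 : ℝ) else 0)) ^ 2) ≤ 1 / K

/-- TW-VAL (the trigonometric integrals) -/
def S_VAL : Prop := ∀ (n : ℕ) (σ : ℕ → ℝ) (α : ℝ), n = 2 ^ 14 → Sgn σ →
  (∫ x in cube, (thx n σ α x * pf n σ (Af n α x) (Bf n α x) + 6 * sq (Af n α x)
      + 6 * sq (Bf n α x))) = -(n : ℝ) * α ^ 2 ∧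
  (∫ x in cube, ((∑ s : Fin (2 * n), (amp n σ α (.inl (.inr s))
        * Real.cos (ph n (.inl (.inr s)) x)) ^ 2) + sq (Af n α x)
      - (thx n σ α x - 1 / 2) ^ 2 - (thx n σ α x - 1 / 2))) = 0

/-- TW-THB (bounds for the coarse θ) -/
def S_THB : Prop := ∀ (n : ℕ) (σ : ℕ → ℝ), n = 2 ^ 14 → Sgn σ →
  (∀ φ y : ℝ, (∑ s ∈ Finset.range (2 ^ 15), σ s * Real.cos (φ + s * y)) ^ 2 ≤ 2 * 2 ^ 15) →
  ∀ x, 0 ≤ thx n σ (1 / (32 * n)) x ∧ thx n σ (1 / (32 * n)) x ≤ 1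

/-- TW-FLD (the field, its coordinates and the wells along it) -/
def S_FLD : Prop := ∀ (n m : ℕ) (e : Ix n ≃ Fin m) (σ : ℕ → ℝ) (α : ℝ),
  Adm (slow e σ α) ∧
  (∀ (x : Fin 2 → ℝ) (z : Fin 2 → ℤ), thx n σ α (x + fun i => (z i : ℝ)) = thx n σ α x) ∧
  ContDiff ℝ ((⊤ : ℕ∞) : WithTop ℕ∞) (thx n σ α) ∧
  ∀ (x : Fin 2 → ℝ) (y Λ k c χ : ℝ),
    Wm e σ Λ k c χ (F0 e + gr (slow e σ α) x + Matrix.of (fun (i : Fin 2) (j : Fin m) =>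
        if j = e (.inl (.inl ())) ∧ i = 1 then y else 0)) =
      Λ * (thx n σ α x + y - χ) ^ 2 + χ * pf n σ (Af n α x) (Bf n α x) + 6 * sq (Af n α x)
        + 6 * sq (Bf n α x)
        + c * ((∑ s : Fin (2 * n), (amp n σ α (.inl (.inr s))
            * Real.cos (ph n (.inl (.inr s)) x)) ^ 2) + sq (Af n α x)
          - (thx n σ α x - 1 / 2) ^ 2 - 2 * (1 / 2 + y) * (thx n σ α x - 1 / 2))

/-- TW-PK (smoothness and periodicity of the profile) -/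
def S_PK : Prop := ∀ K : ℕ,
  ContDiff ℝ ((⊤ : ℕ∞) : WithTop ℕ∞) (Function.uncurry (PK K)) ∧
  (∀ τ s, PK K τ (s + 1) = PK K τ s) ∧ (∀ τ s, deriv (PK K τ) s = TK K τ s) ∧
  (∀ τ, (∫ s in (0 : ℝ)..1, TK K τ s) = 0)

/-- TW-UPA (assembly of the upper bound) -/
def S_UPA : Prop := ∀ (n m : ℕ) (e : Ix n ≃ Fin m) (σ : ℕ → ℝ) (Λ k c δ : ℝ), n = 2 ^ 14 → Sgn σ →
  (∀ φ y : ℝ, (∑ s ∈ Finset.range (2 ^ 15), σ s * Real.cos (φ + s * y)) ^ 2 ≤ 2 * 2 ^ 15) →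
  0 ≤ Λ → 0 < δ → ∃ u : (Fin 2 → ℝ) → (Fin m → ℝ), Adm u ∧
    (∫ x in cube, min (Wm e σ Λ k c 0 (F0 e + gr u x)) (Wm e σ Λ k c 1 (F0 e + gr u x)))
      ≤ -(1 / 2 ^ 24) + δ

/-- TW-F0 (value of the minorant at F0) -/
def S_F0 : Prop := ∀ (n m : ℕ) (e : Ix n ≃ Fin m) (σ : ℕ → ℝ) (ε Mc k c : ℝ), 1 ≤ n →
  -(5 / 4 * ε) ≤ gg n σ ε Mc (st e (F0 e)) + k * SO e (F0 e) + NN e c (F0 e)

/-- TW-LIN (linearity of the state map and its values on rank-one matrices) -/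
def S_LIN : Prop := ∀ (n m : ℕ) (e : Ix n ≃ Fin m),
  (∀ (F X : Mt m) (t : ℝ), st e (F + t • X) = st e F + t • st e X) ∧
  (∀ (F X : Mt m) (t : ℝ) (ι : Ix n), Oc e (F + t • X) ι = Oc e F ι + t * Oc e X ι) ∧
  (∀ X : Mt m, st e X = ∑ ι : Ix n, Gc e X ι • ax n ι) ∧
  (∀ (v : Fin 2 → ℝ) (β : Fin m → ℝ) (ι : Ix n),
    Gc e (Matrix.vecMulVec v β) ι = β (e ι) * (ip (kr n ι) v / ip (kr n ι) (kr n ι)) ∧
    Oc e (Matrix.vecMulVec v β) ι = β (e ι) * (dt (kr n ι) v / ip (kr n ι) (kr n ι))) ∧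
  Continuous (fun F : Mt m => st e F) ∧ Continuous (fun F : Mt m => SO e F)

end Pool.Agent.W682.TW
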