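import Pool.Agent.W682.TW.Stm

set_option autoImplicit false

open scoped BigOperators
open MeasureTheory

namespace Pool.Agent.W682.TW.Asm0

open Pool.Agent.W682.TW

/-- the assembly: all parts imply the frozen statement -/
theorem frz (hRS : S_RS) (hRKA : S_RKA) (hPOS : S_POS) (hFRZ : S_FRZ) (hUPA : S_UPA) (hF0 : S_F0)
    (hDOM : S_DOM) (hLE4 : S_LE4) (hLE1 : S_LE1) : Frz := by
  obtain ⟨σ, hσ, hb⟩ := hRS 15
  obtain ⟨n, hn⟩ : ∃ n : ℕ, n = 2 ^ 14 := ⟨_, rfl⟩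
  have hn1 : 1 ≤ n := by rw [hn]; norm_num
  have hn2 : 2 ≤ n := by rw [hn]; norm_num
  set ε : ℝ := 1 / 2 ^ 26 with hε
  have hε0 : 0 < ε := by rw [hε]; positivity
  have hε1 : ε ≤ 1 / 2 := by rw [hε]; norm_num
  set Mc : ℝ := 2000 * (n : ℝ) ^ 6 with hMc
  have hMc0 : 0 ≤ Mc := by rw [hMc]; positivity
  have hx := hDOM n σ ε Mc hn hσ hε0 hε1 (le_of_eq hMc.symm)
  obtain ⟨R, hR⟩ := hx.2
  obtain ⟨Λ₀, hΛ⟩ := hLE1 n σ ε R hn2 hσ hε0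
  set Λ : ℝ := max (max Λ₀ (Mc + Mc ^ 2 / 4)) ((n : ℝ) ^ 2) with hΛd
  have hΛ1 : Λ₀ ≤ Λ := (le_max_left _ _).trans (le_max_left _ _)
  have hΛ2 : Mc + Mc ^ 2 / 4 ≤ Λ := (le_max_right _ _).trans (le_max_left _ _)
  have hΛ3 : (n : ℝ) ^ 2 ≤ Λ := le_max_right _ _
  have hΛ4 : 0 ≤ Λ := le_trans (by positivity) hΛ3
  let e : Ix n ≃ Fin (Fintype.card (Ix n)) := Fintype.equivFin (Ix n)
  set c : ℝ := (n : ℝ) ^ 2 with hc
  obtain ⟨k1, hk1⟩ := hRKA n _ e σ ε Mc c hn hσ hε0 hε1 (le_of_eq hMc.symm)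
  obtain ⟨k2, hk2⟩ := hPOS n _ e σ Λ 0 hn1 hσ hΛ3 (Or.inl rfl)
  obtain ⟨k3, hk3⟩ := hPOS n _ e σ Λ 1 hn1 hσ hΛ3 (Or.inr rfl)
  set k : ℝ := max (max k1 k2) k3 with hk
  have hkk1 : k1 ≤ k := (le_max_left _ _).trans (le_max_left _ _)
  have hkk2 : k2 ≤ k := (le_max_right _ _).trans (le_max_left _ _)
  have hkk3 : k3 ≤ k := le_max_right _ _
  obtain ⟨u, hu, hui⟩ := hUPA n _ e σ Λ k c (1 / 2 ^ 26) hn hσ hb hΛ4 (by positivity)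
  -- gg below the wells
  have hgw : ∀ χ : ℝ, (χ = 0 ∨ χ = 1) → ∀ x : St n, gg n σ ε Mc x ≤ wx n σ Λ χ x := by
    intro χ hχ x
    have h4 : g4 n Mc x ≤ wx n σ Λ χ x := hLE4 n σ Mc Λ χ hσ hMc0 hΛ2 hχ x
    unfold gg
    split_ifs with hs
    · rcases le_total (g1 n σ ε x) (g4 n Mc x) with h | h
      · rw [max_eq_right h]; exact h4
      · rw [max_eq_left h]
        obtain ⟨ha, hb'⟩ := hR x hs.1 hs.2 h
        exact hΛ Λ χ hΛ1 hχ x hs.1 hs.2 ha hb'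
    · exact h4
  refine hFRZ _ (Wm e σ Λ k c 0) (Wm e σ Λ k c 1)
    (fun F => gg n σ ε Mc (st e F) + k * SO e F + NN e c F) (F0 e) u
    (hk2 k hkk2) (hk3 k hkk3) (hk1 k hkk1) ?_ hu ?_
  · intro H
    refine le_min ?_ ?_
    · have := hgw 0 (Or.inl rfl) (st e H)
      unfold Wm; linarith
    · have := hgw 1 (Or.inr rfl) (st e H)
      unfold Wm; linarith
  · have h1 := hF0 n _ e σ ε Mc k c hn1
    refine lt_of_le_of_lt hui (lt_of_lt_of_le ?_ h1)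
    rw [hε]; norm_num

end Pool.Agent.W682.TW.Asm0
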