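import Pool.Agent.W682.TW.Stm

/-!
Project TW, second half: homogeneous wells and two-phase G-closures (MP_393ee6_an).
-/

set_option autoImplicit false

open scoped BigOperators Topology
open MeasureTheory

namespace Pool.Agent.W682.TW

/-- the data produced by the first half -/
def Data : Prop := ∃ (m : ℕ) (Q₀ Q₁ g : Mt m → ℝ) (F : Mt m) (u : (Fin 2 → ℝ) → (Fin m → ℝ)),
  IsPQ Q₀ ∧ IsPQ Q₁ ∧ RankOne g ∧ (∀ H, g H ≤ min (Q₀ H) (Q₁ H)) ∧ Adm u ∧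
  (∫ x in cube, min (Q₀ (F + gr u x)) (Q₁ (F + gr u x))) < g F

/-- inner product of 2 x m matrices -/
def tp {m : ℕ} (A B : Mt m) : ℝ := Matrix.trace (A * B.transpose)

/-- self-adjoint positive definite linear maps -/
def SPD {m : ℕ} (L : Mt m →ₗ[ℝ] Mt m) : Prop :=
  (∀ A B : Mt m, tp A (L B) = tp (L A) B) ∧ (∀ A : Mt m, A ≠ 0 → 0 < tp A (L A))

/-- the data with homogeneous wells -/
def HData : Prop := ∃ (m : ℕ) (L₁ L₂ : Mt m →ₗ[ℝ] Mt m) (g : Mt m → ℝ) (F : Mt m)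
  (u : (Fin 2 → ℝ) → (Fin m → ℝ)), 1 ≤ m ∧
  SPD L₁ ∧ SPD L₂ ∧ RankOne g ∧ (∀ H, g H ≤ tp H (L₁ H)) ∧ (∀ H, g H ≤ tp H (L₂ H)) ∧ Adm u ∧
  (∫ x in cube, min (tp (F + gr u x) (L₁ (F + gr u x))) (tp (F + gr u x) (L₂ (F + gr u x)))) < g F

/-- a microstructure: measurable set (phase 1), invariant under integer translations -/
def Micro (S : Set (Fin 2 → ℝ)) : Prop :=
  MeasurableSet S ∧ ∀ (x : Fin 2 → ℝ) (z : Fin 2 → ℤ), (x + fun i => (z i : ℝ)) ∈ S ↔ x ∈ S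

/-- volume fraction of phase 1 -/
noncomputable def vf (S : Set (Fin 2 → ℝ)) : ℝ := (volume (S ∩ cube)).toReal

/-- the local tensor: L₁ on S, L₂ outside -/
noncomputable def loc {m : ℕ} (L₁ L₂ : Mt m →ₗ[ℝ] Mt m) (S : Set (Fin 2 → ℝ))
    (x : Fin 2 → ℝ) : Mt m →ₗ[ℝ] Mt m := by
  classical
  exact if x ∈ S then L₁ else L₂

/-- `Ls` is the effective tensor of the microstructure `S`: for every constant `E₀` there is a
square integrable field `E` on the cell which is `E₀` plus a gradient of periodic potentials (a limit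
in L² of gradients of smooth periodic maps), whose current `J = L(x) E` is divergence free, and
`Ls E₀` is the mean of `J`. -/
def IsEff {m : ℕ} (L₁ L₂ : Mt m →ₗ[ℝ] Mt m) (S : Set (Fin 2 → ℝ)) (Ls : Mt m →ₗ[ℝ] Mt m) : Prop :=
  ∀ E₀ : Mt m, ∃ E : (Fin 2 → ℝ) → Mt m,
    (∀ i α, MemLp (fun x => E x i α) 2 (volume.restrict cube)) ∧
    (∃ u : ℕ → (Fin 2 → ℝ) → (Fin m → ℝ), (∀ k, Adm (u k)) ∧
      Filter.Tendsto (fun k => ∫ x in cube, tp (E x - E₀ - gr (u k) x) (E x - E₀ - gr (u k) x))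
        Filter.atTop (𝓝 0)) ∧
    (∀ φ : (Fin 2 → ℝ) → (Fin m → ℝ), Adm φ →
      (∫ x in cube, tp (loc L₁ L₂ S x (E x)) (gr φ x)) = 0) ∧
    ∀ i α, Ls E₀ i α = ∫ x in cube, (loc L₁ L₂ S x (E x)) i α

/-- `C` is the effective tensor of a layering of `A` (proportion lam) and `B` (proportion 1 - lam)
with normal `v`: for every mean field there are constant fields in the two layers with a rank-one
difference v ⊗ b and continuous normal currents. -/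
def Layer {m : ℕ} (A B : Mt m →ₗ[ℝ] Mt m) (lam : ℝ) (v : Fin 2 → ℝ) (C : Mt m →ₗ[ℝ] Mt m) : Prop :=
  ∀ E₀ : Mt m, ∃ b : Fin m → ℝ,
    (∀ α, ∑ i : Fin 2, v i * (A (E₀ + (1 - lam) • Matrix.vecMulVec v b)
      - B (E₀ - lam • Matrix.vecMulVec v b)) i α = 0) ∧
    C E₀ = lam • A (E₀ + (1 - lam) • Matrix.vecMulVec v b)
      + (1 - lam) • B (E₀ - lam • Matrix.vecMulVec v b)

/-- effective tensors of multiple-rank laminates; first argument = volume fraction of phase 1 -/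
inductive Lam {m : ℕ} (L₁ L₂ : Mt m →ₗ[ℝ] Mt m) : ℝ → (Mt m →ₗ[ℝ] Mt m) → Prop
  | one : Lam L₁ L₂ 1 L₁
  | two : Lam L₁ L₂ 0 L₂
  | step (f g lam : ℝ) (A B C : Mt m →ₗ[ℝ] Mt m) (v : Fin 2 → ℝ) :
      Lam L₁ L₂ f A → Lam L₁ L₂ g B → 0 ≤ lam → lam ≤ 1 → v ≠ 0 → Layer A B lam v C →
      Lam L₁ L₂ (lam * f + (1 - lam) * g) C

/-- closure of a set of linear maps (finite-dimensional: pointwise limits of sequences) -/
def Cl {m : ℕ} (T : Set (Mt m →ₗ[ℝ] Mt m)) : Set (Mt m →ₗ[ℝ] Mt m) :=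
  {L | ∃ q : ℕ → (Mt m →ₗ[ℝ] Mt m), (∀ k, q k ∈ T) ∧
    ∀ E : Mt m, Filter.Tendsto (fun k => q k E) Filter.atTop (𝓝 (L E))}

/-- the G_f-closure -/
def Gf {m : ℕ} (L₁ L₂ : Mt m →ₗ[ℝ] Mt m) (f : ℝ) : Set (Mt m →ₗ[ℝ] Mt m) :=
  Cl {Ls | ∃ S : Set (Fin 2 → ℝ), Micro S ∧ vf S = f ∧ IsEff L₁ L₂ S Ls}

/-- the lamination closure -/
def GLf {m : ℕ} (L₁ L₂ : Mt m →ₗ[ℝ] Mt m) (f : ℝ) : Set (Mt m →ₗ[ℝ] Mt m) :=
  Cl {Ls | Lam L₁ L₂ f Ls}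

/-- the negative answer to MP_393ee6_an -/
def GCneg : Prop := ∃ (m : ℕ) (L₁ L₂ : Mt m →ₗ[ℝ] Mt m) (f : ℝ), 1 ≤ m ∧ 0 ≤ f ∧ f ≤ 1 ∧
  SPD L₁ ∧ SPD L₂ ∧ Gf L₁ L₂ f ≠ GLf L₁ L₂ f

/-! ### statements -/

/-- TW-HOM (homogeneous wells) -/
def S_HOM : Prop := Data → HData

/-- TW-LAM (laminates respect rank-one convex lower bounds) -/
def S_LAM : Prop := ∀ (m : ℕ) (L₁ L₂ : Mt m →ₗ[ℝ] Mt m) (g : Mt m → ℝ) (f : ℝ)
  (L : Mt m →ₗ[ℝ] Mt m), RankOne g → (∀ H, g H ≤ tp H (L₁ H)) → (∀ H, g H ≤ tp H (L₂ H)) →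
  L ∈ GLf L₁ L₂ f → ∀ H, g H ≤ tp H (L H)

/-- TW-EFF (existence and minimum property of the effective tensor) -/
def S_EFF : Prop := ∀ (m : ℕ) (L₁ L₂ : Mt m →ₗ[ℝ] Mt m) (S : Set (Fin 2 → ℝ)),
  SPD L₁ → SPD L₂ → Micro S → ∃ Ls : Mt m →ₗ[ℝ] Mt m, IsEff L₁ L₂ S Ls ∧
    ∀ (E₀ : Mt m) (u : (Fin 2 → ℝ) → (Fin m → ℝ)), Adm u →
      tp E₀ (Ls E₀) ≤ ∫ x in cube, tp (E₀ + gr u x) (loc L₁ L₂ S x (E₀ + gr u x))

/-- TW-GCA (assembly) -/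
def S_GCA : Prop := HData → S_LAM → S_EFF → GCneg

end Pool.Agent.W682.TW
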